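import Pool.Agent.H.MP_4aa5c9_gt.A

set_option autoImplicit false

namespace Pool.Agent.Results.MP_4aa5c9_gt.Yes

open Set Metric TopologicalSpace

def KCrowded (Z : Type) [TopologicalSpace Z] : Prop :=
  ∀ U : Set Z, IsOpen U → U.Nonempty → ∃ K ⊆ U, IsCompact K ∧ ¬ K.Countable

def Plastic (Z : Type) [MetricSpace Z] : Prop :=
  ∀ f : Z → Z, Function.Bijective f → (∀ x y, dist (f x) (f y) ≤ dist x y) →
    ∀ x y, dist (f x) (f y) = dist x y

theorem result (Y : Type) [MetricSpace Y] [SeparableSpace Y] (hY : KCrowded Y) :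
    ∃ X : Set Y, Plastic X ∧ Dense X ∧ IsSigmaCompact X ∧ KCrowded X := by
  classical
  rcases isEmpty_or_nonempty Y with h | h
  · exact ⟨∅, fun _ _ _ x => x.2.elim, fun x => h.elim x, isSigmaCompact_empty,
      fun _ _ ⟨x, _⟩ => x.2.elim⟩
  haveI : SecondCountableTopology Y := UniformSpace.secondCountable_of_separable Y
  let c : ℕ → Y := denseSeq Y
  have hc : DenseRange c := denseRange_denseSeq Y
  have ex : ∀ n : ℕ, ∃ C : Set Y, IsCompact C ∧ C.Nonempty ∧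
      C ⊆ ball (c n.unpair.1) (1 / (n.unpair.2 + 1)) ∧
      ∀ x : C, ∀ ε > 0, ∃ y, y ≠ x ∧ dist y x < ε := by
    intro n
    obtain ⟨K, k1, k2, k3⟩ := hY (ball (c n.unpair.1) (1 / (n.unpair.2 + 1))) isOpen_ball
      ⟨_, mem_ball_self (by positivity)⟩
    obtain ⟨C, c1, c2, c3⟩ := exists_perfect_nonempty_of_isClosed_of_not_countable k2.isClosed k3
    refine ⟨C, k2.of_isClosed_subset c1.closed c3, c2, c3.trans k1, fun x ε hε => ?_⟩
    obtain ⟨y, hy, y1⟩ := (accPt_iff_nhds.1 (c1.acc x x.2)) _ (ball_mem_nhds _ hε)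
    exact ⟨⟨y, hy.2⟩, fun e => y1 (congrArg Subtype.val e), hy.1⟩
  choose C c1 c2 c3 c4 using ex
  obtain ⟨K, k, HK⟩ := H.MP_4aa5c9_gt.generic C c1 c2 c4 c
  have inside : ∀ (p : Y) (ε : ℝ), 0 < ε → ∃ n, K n ⊆ ball p ε := by
    intro p ε hε
    obtain ⟨j, hj⟩ := exists_nat_one_div_lt (half_pos hε)
    obtain ⟨i, hi⟩ := Metric.denseRange_iff.1 hc p _ (half_pos hε)
    refine ⟨Nat.pair i j, fun y hy => ?_⟩
    have := c3 _ ((k _).2.2 hy)
    simp only [Nat.unpair_pair, mem_ball] at this ⊢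
    linarith [dist_triangle_right y p (c i)]
  refine ⟨⋃ n, K n, fun f fb hf => ?_, Metric.dense_iff.2 fun p ε hε => ?_,
    isSigmaCompact_iUnion_of_isCompact _ fun n => (k n).1, fun U hU ⟨p, hp⟩ => ?_⟩
  · let g : Y → Y := fun y => if h : y ∈ ⋃ n, K n then f ⟨y, h⟩ else y
    have eg : ∀ x : ↥(⋃ n, K n), g x = f x := fun x => dif_pos x.2
    have := H.MP_4aa5c9_gt.rigid hc (fun n => (k n).1) HK (g := g)
      (fun x hx y hy => by rw [eg ⟨x, hx⟩, eg ⟨y, hy⟩]; exact hf ⟨x, hx⟩ ⟨y, hy⟩)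
      (fun q hq => by
        obtain ⟨x, hx⟩ := fb.2 ⟨q, hq⟩
        exact ⟨x, x.2, by rw [eg, hx]⟩)
    have e : ∀ x, f x = x := fun x => Subtype.ext ((eg x).symm.trans (this x x.2))
    intro x y; rw [e, e]
  · obtain ⟨n, hn⟩ := inside p ε hε
    obtain ⟨y, hy⟩ := (k n).2.1
    exact ⟨y, hn hy, mem_iUnion.2 ⟨n, hy⟩⟩
  · obtain ⟨ε, hε, hb⟩ := Metric.isOpen_iff.1 hU p hp
    obtain ⟨n, hn⟩ := inside p ε hε
    have im : Subtype.val '' (Subtype.val ⁻¹' K n : Set ↥(⋃ n, K n)) = K n :=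
      image_preimage_eq_of_subset (by rw [Subtype.range_coe]; exact subset_iUnion K n)
    refine ⟨Subtype.val ⁻¹' K n, fun y hy => hb (hn hy), ?_, fun h => ?_⟩
    · rw [Subtype.isCompact_iff, im]; exact (k n).1
    · exact H.MP_4aa5c9_gt.unc hc (fun n => (k n).1) HK n (k n).2.1 (im ▸ h.image _)

end Pool.Agent.Results.MP_4aa5c9_gt.Yes
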